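import Pool.Agent.W426.LE.SG
set_option autoImplicit false

/-! LE-TW1: product of the signs of a twisted colouring. -/

namespace Pool.Agent.W230.LE.TW1

open Finset Pool.Agent.W426.LE
open scoped Classical

theorem main : S_TW1 := by
  intro p n _ _ hp hn I T F _ _ _ ρ s v j x hx
  have hstep : ∀ (y : ZMod n) (b : Bool) (i : DD I T),
      inc s v (y + 1, b) i = rot (inc s v (y, b) i) := by
    intro y b i
    rcases i with ⟨i, _ | _⟩ | τ
    · cases b <;> simp [inc, rot] <;> ring
    · cases b <;> simp [inc, rot]
    · cases b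
      · simp [inc, rot]
      · simp [inc, rot]; ring
  have hsg : ∀ (y : ZMod n) (b : Bool), sg ρ (fun i => x (inc s v (y + 1, b) i)) =
      sg ρ (fun i => x (inc s v (y, b) i)) := by
    intro y b
    have : (fun i => x (inc s v (y + 1, b) i)) = fun i => sh j (x (inc s v (y, b) i)) := by
      funext i
      rw [hstep, hx]
    rw [this, sg_sh hp]
  have hall : ∀ (y : ZMod n) (b : Bool), sg ρ (fun i => x (inc s v (y, b) i)) =
      sg ρ (fun i => x (inc s v (0, b) i)) := by
    intro y b
    have hm : ∀ m : ℕ, sg ρ (fun i => x (inc s v ((m : ZMod n), b) i)) =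
        sg ρ (fun i => x (inc s v (0, b) i)) := by
      intro m
      induction m with
      | zero => simp
      | succ m ih => rw [Nat.cast_succ, hsg, ih]
    have := hm y.val
    rwa [ZMod.natCast_val, ZMod.cast_id] at this
  have hpow : ∀ f : DD I T → CC p F, sg ρ f ^ n = sg ρ f := by
    intro f
    by_cases h : Function.Bijective f
    · rcases sg_eq ρ f h with h | h
      · rw [h, one_pow]
      · rw [h, hn.neg_one_pow]
    · rw [sg_of_not ρ f h, zero_pow hn.pos.ne']
  rw [Fintype.prod_prod_type]
  have h1 : ∀ y : ZMod n, ∏ b : Bool, sg ρ (fun i => x (inc s v (y, b) i)) =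
      sg ρ (fun i => x (inc s v (0, true) i)) * sg ρ (fun i => x (inc s v (0, false) i)) := by
    intro y
    rw [Fintype.prod_bool, hall y true, hall y false]
  rw [Finset.prod_congr rfl fun y _ => h1 y, Finset.prod_const, Finset.card_univ, ZMod.card,
    mul_pow, hpow, hpow, mul_comm]

end Pool.Agent.W230.LE.TW1
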