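import Pool.Agent.W426.LE.SG
set_option autoImplicit false

/-! LE-TW2: sign factorisation at a vertex. -/

namespace Pool.Agent.W230.LE.TW2

open Finset Pool.Agent.W426.LE
open scoped Classical

/-- the relabelling -/
def Lam {I T F : Type} (ψ : T ≃ Option F) : DD I T ≃ (Option (I × Bool) ⊕ F) where
  toFun
    | .inl q => .inl (some q)
    | .inr τ => match ψ τ with
      | none => .inl none
      | some f => .inr f
  invFun
    | .inl (some q) => .inl q
    | .inl none => .inr (ψ.symm none)
    | .inr f => .inr (ψ.symm (some f))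
  left_inv := by
    rintro (q | τ)
    · rfl
    · rcases h : ψ τ with _ | f
      · simp only [h]
        rw [← h, Equiv.symm_apply_apply]
      · simp only [h]
        rw [← h, Equiv.symm_apply_apply]
  right_inv := by
    rintro ((_ | q) | f)
    · simp
    · rfl
    · simp

lemma arr_eq {p : ℕ} {I T F : Type} (g : I → ZMod p) (c : ZMod p) (ψ : T ≃ Option F)
    (a : I → ZMod p) : (arr g c ψ a : DD I T → CC p F) =
      fun d => sh c (Sum.map (ff g a) id (Lam ψ d)) := by
  funext d
  rcases d with ⟨i, _ | _⟩ | τ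
  · simp only [arr, Lam, Equiv.coe_fn_mk, Sum.map_inl, ff, sh]
    congr 1
    ring
  · simp only [arr, Lam, Equiv.coe_fn_mk, Sum.map_inl, ff, sh]
    congr 1
    ring
  · rcases h : ψ τ with _ | f
    · simp [arr, Lam, h, ff, sh]
    · simp [arr, Lam, h, sh]

theorem main : S_TW2 := by
  intro p _ hp I T F _ _ _ ρ ρ'
  refine ⟨fun ψ => sg ρ (fun d => Sum.map ρ' id (Lam ψ d)), fun ψ => ?_, fun ψ g c a => ?_⟩
  · refine sg_sq ρ _ ?_
    exact (Sum.map_bijective.2 ⟨ρ'.bijective, Function.bijective_id⟩).comp (Lam ψ).bijective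
  · rw [arr_eq, sg_sh hp]
    set f := ff g a with hf
    clear_value f
    by_cases h : Function.Bijective f
    · obtain ⟨e, rfl⟩ := exists_equiv f h
      set κ : Equiv.Perm (ZMod p) := ρ'.symm.trans e with hκ
      have h1 : (fun d => Sum.map e id (Lam ψ d) : DD I T → CC p F) =
          fun d => (Equiv.sumCongr κ (Equiv.refl F)) (Sum.map ρ' id (Lam ψ d)) := by
        funext d
        rcases Lam ψ d with q | f
        · simp [hκ]
        · simp
      have h2 : (e : Option (I × Bool) → ZMod p) = fun q => κ (ρ' q) := by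
        funext q
        simp [hκ]
      have h3 : sg ρ' (ρ' : Option (I × Bool) → ZMod p) = 1 := by
        rw [sg_equiv]
        simp
      rw [h1, sg_perm_comp ρ _ (Equiv.sumCongr κ (Equiv.refl F))]
      conv_rhs => rw [h2, sg_perm_comp ρ' _ κ, h3, mul_one]
      rw [mul_comm]
      congr 1
      have h4 := Equiv.Perm.sign_sumCongr κ (1 : Equiv.Perm F)
      rw [Equiv.Perm.sign_one, mul_one] at h4
      have h5 : Equiv.Perm.sumCongr κ (1 : Equiv.Perm F) = Equiv.sumCongr κ (Equiv.refl F) := rfl
      rw [h5] at h4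
      have h6 := congrArg (fun u : ℤˣ => (u : ℤ)) h4
      have sgi : ∀ {α : Type} (i1 i2 : DecidableEq α) (f1 f2 : Fintype α) (σ : Equiv.Perm α),
          ((@Equiv.Perm.sign α i1 f1 σ : ℤˣ) : ℤ) = ((@Equiv.Perm.sign α i2 f2 σ : ℤˣ) : ℤ) := by
        intro α i1 i2 f1 f2 σ
        have h1 : i1 = i2 := Subsingleton.elim _ _
        have h2 : f1 = f2 := Subsingleton.elim _ _
        subst h1
        subst h2
        rfl
      exact (sgi _ _ _ _ _).trans (h6.trans (sgi _ _ _ _ _))
    · rw [sg_of_not ρ' f h, mul_zero, sg_of_not]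
      intro h'
      apply h
      have h1 : Function.Bijective (Sum.map f id : Option (I × Bool) ⊕ F → CC p F) := by
        have h2 := h'.comp (Lam ψ).symm.bijective
        have h3 : ((fun d => Sum.map f id (Lam ψ d)) ∘ (Lam ψ).symm :
            Option (I × Bool) ⊕ F → CC p F) = Sum.map f id := by
          funext q
          simp
        rwa [h3] at h2
      exact (Sum.map_bijective.1 h1).1

end Pool.Agent.W230.LE.TW2
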